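import Pool.Agent.Work.MP_36677d_fl.FL5

/-! # States of the search in a hereditarily decomposable continuum (helper57) -/

set_option autoImplicit false

open Set Filter Topology

namespace Pool.FM57

open Pool.TL94 Pool.FA57 Pool.FL57

variable {M : Type} [MetricSpace M]

/-- the points joined with `u` by a continuum missing `z` -/
def Kz (z u : M) : Set M := {w | z ∉ seg u w}

theorem clz (h : LD M) (z u : M) : clW {z} u = Kz z u := by
  ext w
  constructor
  · rintro ⟨C, hC, hw, hu, hd⟩ hz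
    exact Set.disjoint_left.1 hd (seg_sub hC hu hw hz) rfl
  · intro hz
    refine ⟨seg u w, h.sc u w, right_mem _ _, left_mem _ _, ?_⟩
    rw [Set.disjoint_left]
    rintro x hx hxz
    rw [mem_singleton_iff.1 hxz] at hx
    exact hz hx

theorem satK {W : Set M} {z : M} (hz : z ∈ W) (u : M) : SatW W (Kz z u) :=
  fun _ hC hd _ ha _ hb => not_congr (seg_iff hC ha hb fun h => Set.disjoint_left.1 hd h hz)

theorem Kz_trans (h : LD M) {z u w w' : M} (h1 : w ∈ Kz z u) (h2 : w' ∈ Kz z w) :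
    w' ∈ Kz z u := by
  intro h3
  rcases h.sub (h.sc w w') (left_mem _ _) (right_mem _ _) h3 with h4 | h4
  · exact h1 h4
  · exact h2 h4

theorem Kz_symm {z u w : M} (h1 : w ∈ Kz z u) : u ∈ Kz z w := by
  intro h2
  rw [seg_comm] at h2
  exact h1 h2

/-- saturated sets are left only through `z` -/
theorem sat_mem {z : M} {B C : Set M} (hB : SatW {z} B) (hC : Cont C) {a b : M} (ha : a ∈ C)
    (hb : b ∈ C) (haB : a ∈ B) (hbB : b ∉ B) : z ∈ C := by
  by_contra hz
  refine hbB ((hB C hC ?_ a ha b hb).1 haB)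
  rw [Set.disjoint_left]
  rintro x hx hxz
  rw [mem_singleton_iff.1 hxz] at hx
  exact hz hx

theorem sat_mono {z : M} {B W : Set M} (hB : SatW {z} B) (hz : z ∈ W) : SatW W B :=
  fun C hC hd a ha b hb => hB C hC (hd.mono_right (singleton_subset_iff.2 hz)) a ha b hb

/-- the class does not depend on the point of the gate -/
theorem K_el {v x y : M} (hx : x ∈ EL v y) : Kz x v = Kz y v := by
  ext w
  refine not_congr ⟨fun h1 => ?_, fun h1 => ?_⟩
  · exact seg_mono h1 hx.2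
  · exact seg_mono h1 hx.1

/-- the gate does not depend on the point of the class -/
theorem el_K_sub (h : LD M) {z u u' : M} (hu : u' ∈ Kz z u) : EL u z ⊆ EL u' z := by
  rintro x ⟨h1, h2⟩
  refine ⟨h.btw h1 fun h3 => hu (seg_mono h3 h2), h.btw h2 hu⟩

theorem el_K (h : LD M) {z u u' : M} (hu : u' ∈ Kz z u) : EL u z = EL u' z :=
  Subset.antisymm (el_K_sub h hu) (el_K_sub h (Kz_symm hu))

/-- the backward set after the step from `z` to `y` -/
def Bk (z : M) (B : Set M) (y : M) : Set M := {v | y ∉ seg z v} ∪ B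

theorem sat_bk {z : M} {B : Set M} (hB : SatW {z} B) (y : M) : SatW {y} (Bk z B y) := by
  have key : ∀ C : Set M, Cont C → Disjoint C {y} → ∀ a ∈ C, ∀ b ∈ C, a ∈ Bk z B y →
      b ∈ Bk z B y := by
    intro C hC hd a ha b hb haB
    have hyC : y ∉ C := fun h1 => Set.disjoint_left.1 hd h1 rfl
    by_contra hbB
    have h1 : y ∈ seg z b := by
      by_contra h2
      exact hbB (Or.inl h2)
    have h2 : b ∉ B := fun h3 => hbB (Or.inr h3)
    rcases haB with h3 | h3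
    · exact h3 ((seg_iff hC ha hb hyC).2 h1)
    · exact hyC (seg_sub hC (sat_mem hB hC ha hb h3 h2) hb h1)
  exact fun C hC hd a ha b hb => ⟨key C hC hd a ha b hb, key C hC hd b hb a ha⟩

theorem z_mem_bk {z y : M} (B : Set M) (h : y ≠ z) : z ∈ Bk z B y := by
  left
  intro h1
  rw [seg_self] at h1
  exact h h1

theorem sub_bk (z : M) (B : Set M) (y : M) : B ⊆ Bk z B y := subset_union_right

variable {H : M → ℝ → M} {v : M → ℝ → ℝ} {e δ : ℝ} {N : ℕ}

/-- the complement of a set of parity one has parity zero -/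
theorem pa_compl (D : Dx H v e δ N) {z : M} {S : Set M} (h : pa H v e N z S = 1) :
    pa H v e N z Sᶜ = 0 := by
  have h1 : pa H v e N z S + pa H v e N z Sᶜ = pa H v e N z univ := by
    unfold pa
    rw [par_eq_sum, par_eq_sum, par_eq_sum, ← Finset.sum_add_distrib]
    refine Finset.sum_congr rfl fun j _ => ?_
    by_cases h2 : H z ((mdx j : ℝ) / (N : ℝ)) ∈ S
    · rw [if_pos h2, if_neg (fun h3 => h3 h2), if_pos (mem_univ _), add_zero]
    · rw [if_neg h2, if_pos (show H z ((mdx j : ℝ) / (N : ℝ)) ∈ Sᶜ from h2),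
        if_pos (mem_univ _), zero_add]
  rw [pa_univ D, h] at h1
  have h2 : ∀ a : ZMod 2, 1 + a = 1 → a = 0 := by decide
  exact h2 _ h1

theorem pa_empty (H : M → ℝ → M) (v : M → ℝ → ℝ) (e : ℝ) (N : ℕ) (z : M) :
    pa H v e N z ∅ = 0 := by
  unfold pa
  rw [par_eq_sum]
  refine Finset.sum_eq_zero fun j _ => ?_
  rw [if_neg]
  exact notMem_empty _

theorem pa_none (D : Dx H v e δ N) {z : M} {S : Set M}
    (h : ∀ i < N, |v z ((i : ℝ) / (N : ℝ))| < e → H z ((i : ℝ) / (N : ℝ)) ∉ S) :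
    pa H v e N z S = 0 := by
  rw [← pa_empty H v e N z]
  exact pa_congr D fun i hi hv => ⟨fun h1 => absurd h1 (h i hi hv), fun h1 => absurd h1
    (notMem_empty _)⟩

/-- states: backward sets of even parity; a wild gate which is not behind is not entered -/
structure Stt (H : M → ℝ → M) (v : M → ℝ → ℝ) (e : ℝ) (N : ℕ) (z : M) (B : Set M) : Prop where
  nz : z ∉ B
  sat : SatW {z} B
  even : pa H v e N z B = 0
  gate : ∀ s ∈ Icc (0:ℝ) 1, H z s ∉ B → Wild H v e N (EL (H z s) z) →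
    ∀ w ∈ EL (H z s) z, w ∉ B

variable [CompactSpace M]

/-- a track that starts behind a nontrivial gate stays there -/
theorem track (h : LD M) (cH : Continuous (fun q : M × ℝ => H q.1 q.2)) {z x : M} {s : ℝ}
    (hs : s ∈ Icc (0:ℝ) 1) (hx : x ∈ EL (H z s) z) (hxz : x ≠ z) {t : ℝ}
    (ht : t ∈ Icc (0:ℝ) 1) : H z t ∈ Kz z (H z s) := by
  intro h1
  have h2 := joined_of_mem_seg h.hu (joined_track cH z hs ht) h1
  exact hxz (seg_antisymm h.hu h2 hx.1 hx.2)

theorem wild_ne (D : Dx H v e δ N) {W : Set M} (hW : Wild H v e N W) (z : M) :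
    ∃ x ∈ W, x ≠ z := by
  obtain ⟨a, ha, b, hb, hab⟩ := hW.nontrivial D
  by_cases haz : a = z
  · exact ⟨b, hb, fun h1 => hab (haz.trans h1.symm)⟩
  · exact ⟨a, ha, haz⟩

theorem wild_self (D : Dx H v e δ N) {W : Set M} (hW : Wild H v e N W) :
    ∃ a ∈ W, ∃ s ∈ Icc (0:ℝ) 1, H a s ∈ W := by
  obtain ⟨i, hi, -, z, hz, s, hs, hH⟩ := hW
  have h1 := D.D.mem_t hi.le
  have h2 := D.D.mem_t (show i + 1 ≤ N from hi)
  exact ⟨z, hz, s, ⟨h1.1.trans hs.1, hs.2.trans h2.2⟩, hH⟩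

/-- if the class behind a wild gate is odd, the whole track lies in it -/
theorem odd_track (h : LD M) (D : Dx H v e δ N) {z u : M} (hw : Wild H v e N (EL u z))
    (h1 : pa H v e N z (Kz z u) = 1) {t : ℝ} (ht : t ∈ Icc (0:ℝ) 1) : H z t ∈ Kz z u := by
  obtain ⟨k, hk, -, h2⟩ := pa_mem D h1
  have h3 := el_K h h2
  obtain ⟨x, hx, hxz⟩ := wild_ne D hw z
  rw [h3] at hx
  exact Kz_trans h h2 (track h D.D.cH (D.D.mem_t hk.le) hx hxz ht)

/-- the class of a value behind a wild gate is odd -/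
theorem track_odd (h : LD M) (D : Dx H v e δ N) {z : M} {s : ℝ} (hs : s ∈ Icc (0:ℝ) 1)
    (hw : Wild H v e N (EL (H z s) z)) : pa H v e N z (Kz z (H z s)) = 1 := by
  obtain ⟨x, hx, hxz⟩ := wild_ne D hw z
  exact pa_one D fun i hi _ => track h D.D.cH hs hx hxz (D.D.mem_t hi.le)

/-- the first points of a continuum -/
theorem first (h : LD M) (z : M) {y : M} {G : Set M} (hG : Cont G) (hy : y ∈ G) :
    ∃ y₀ ∈ G, y₀ ∈ seg z y ∧ ∀ g ∈ G, y₀ ∈ seg z g := by
  obtain ⟨C, hC, ⟨hzC, hne⟩, hCK, hmin⟩ := exists_minc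
    (P := fun C => z ∈ C ∧ (C ∩ G).Nonempty) (K₀ := seg z y)
    ⟨h.sc _ _, left_mem _ _, y, right_mem _ _, hy⟩ (fun K hK => ⟨z, hK.1⟩) (by
      intro K hK hdec
      exact ⟨mem_iInter.2 fun n => (hK n).2.1,
        meets_dec (fun n => (hK n).1.cpt) hdec hG.cpt.isClosed fun n => (hK n).2.2⟩)
  obtain ⟨y₀, hy₀C, hy₀G⟩ := hne
  refine ⟨y₀, hy₀G, hCK hy₀C, fun g hg => ?_⟩
  have h1 : seg z g ⊆ C ∪ G := seg_sub (hC.union hG ⟨y₀, hy₀C, hy₀G⟩) (Or.inl hzC) (Or.inr hg)
  obtain ⟨x, hx1, hx2, hx3⟩ := isPreconnected_closed_iff.1 (h.sc z g).con C G hC.cpt.isClosed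
    hG.cpt.isClosed h1 ⟨z, left_mem _ _, hzC⟩ ⟨g, right_mem _ _, hg⟩
  exact (hmin (seg z g ∩ C) ⟨(h.sc z g).cpt.inter hC.cpt,
    h.hu _ _ (h.sc z g).cpt (h.sc z g).con hC.cpt hC.con⟩
    ⟨⟨left_mem _ _, hzC⟩, x, ⟨hx1, hx2⟩, hx3⟩ inter_subset_right hy₀C).1

end Pool.FM57
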