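import Pool.Agent.Work.MP_36677d_fm.FM1

/-! # The next state, tame gates (helper57) -/

set_option autoImplicit false

open Set Filter Topology

namespace Pool.FM57

open Pool.TL94 Pool.FA57 Pool.FL57

variable {M : Type} [MetricSpace M] [CompactSpace M] {H : M → ℝ → M} {v : M → ℝ → ℝ} {e δ : ℝ}
  {N : ℕ}

/-- the parity of the new backward set -/
theorem bk_par (h : LD M) (D : Dx H v e δ N) {z u y : M} {B W : Set M} (hB : SatW {z} B)
    {j : ℕ} (hj : j < N) (hu : u = H z ((j : ℝ) / (N : ℝ))) (huB : u ∉ B)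
    (h1 : pa H v e N z (Kz z u) = 1) (hW : Cont W) (hzW : z ∈ W) (hWu : W ⊆ seg u z)
    (hWt : ¬ Wild H v e N W) (hyW : y ∈ W) (hyE : y ∉ EL u z)
    (hP : ∀ i < N, H z ((i : ℝ) / (N : ℝ)) ∈ Kz z u →
      ∃ C, Cont C ∧ H z ((i : ℝ) / (N : ℝ)) ∈ C ∧ u ∈ C ∧ Disjoint C W) :
    y ∉ B ∧ y ∉ Bk z B y ∧ y ≠ z ∧ pa H v e N y (Bk z B y) = 0 := by
  have hyK : y ∈ Kz z u := fun h2 => hyE ⟨hWu hyW, h2⟩
  have hKB : ∀ w ∈ Kz z u, w ∉ B := fun w hw hwB =>
    hw (sat_mem hB (h.sc u w) (right_mem _ _) (left_mem _ _) hwB huB)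
  have hyB : y ∉ B := hKB y hyK
  have hyz : y ≠ z := by
    rintro rfl
    exact hyK (right_mem _ _)
  have hyBk : y ∉ Bk z B y := by
    rintro (h2 | h2)
    · exact h2 (right_mem _ _)
    · exact hyB h2
  refine ⟨hyB, hyBk, hyz, ?_⟩
  rw [pa_const D hW hWt (sat_mono (sat_bk hB y) hyW) hyW hzW, ← pa_compl D h1]
  refine pa_congr D fun i hi hv => ⟨fun h2 h3 => ?_, fun h2 => ?_⟩
  · obtain ⟨C, hC, hiC, huC, hd⟩ := hP i hi h3
    have hyC : y ∉ C := fun h4 => Set.disjoint_left.1 hd h4 hyW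
    rcases h2 with h4 | h4
    · refine h4 ((seg_iff hC hiC huC hyC).2 ?_)
      rw [seg_comm]
      exact hWu hyW
    · exact hKB _ h3 h4
  · by_contra h3
    have h4 : y ∈ seg z (H z ((i : ℝ) / (N : ℝ))) := by
      by_contra h5
      exact h3 (Or.inl h5)
    have h5 : z ∈ seg u (H z ((i : ℝ) / (N : ℝ))) := by
      by_contra h6
      exact h2 h6
    have hjn : Joined (H z ((i : ℝ) / (N : ℝ))) u := by
      rw [hu]
      exact joined_track D.D.cH z (D.D.mem_t hi.le) (D.D.mem_t hj.le)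
    refine hyz (arc_meet h.hu hjn ?_ h4 ?_)
    · rw [seg_comm]
      exact h5
    · rw [seg_comm]
      exact hWu hyW

/-- the next state, tame gate -/
theorem succ_tame (h : LD M) (D : Dx H v e δ N) {z : M} {B : Set M} (S : Stt H v e N z B)
    {u : M} {j : ℕ} (hj : j < N) (hu : u = H z ((j : ℝ) / (N : ℝ))) (huB : u ∉ B) (huz : u ≠ z)
    (h1 : pa H v e N z (Kz z u) = 1) (hE : ¬ Wild H v e N (EL u z)) :
    ∃ y B', Stt H v e N y B' ∧ z ∈ B' ∧ B ⊆ B' := by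
  classical
  have huK : u ∈ Kz z u := by
    intro h2
    rw [seg_self] at h2
    exact huz h2.symm
  obtain ⟨y, W, hW, hyW, hyE, hEW, hWu, hWt, hWZ⟩ := h.step D (T₀ := EL u z) (G₀ := seg u z)
    (Z := ⋃ i ∈ (Finset.range N : Set ℕ), if H z ((i : ℝ) / (N : ℝ)) ∈ Kz z u then
      seg u (H z ((i : ℝ) / (N : ℝ))) else ∅) (h.el_cont u z) ⟨z, mem_el u z⟩ (h.sc u z)
    (el_sub u z) hE ((Finset.range N).finite_toSet.isClosed_biUnion fun i _ => by
      split_ifs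
      · exact isClosed_seg _ _
      · exact isClosed_empty) (by
      rw [Set.disjoint_left]
      intro x hx hxZ
      obtain ⟨i, -, hi⟩ := mem_iUnion₂.1 hxZ
      split_ifs at hi with h2
      · exact h2 (seg_mono hi hx.2)
      · exact hi) ⟨u, left_mem _ _, mem_iUnion₂.2 ⟨j, by simpa using hj, by
        rw [← hu, if_pos huK]
        exact left_mem _ _⟩⟩
  have hzW : z ∈ W := hEW (mem_el u z)
  have hP : ∀ i < N, H z ((i : ℝ) / (N : ℝ)) ∈ Kz z u →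
      ∃ C, Cont C ∧ H z ((i : ℝ) / (N : ℝ)) ∈ C ∧ u ∈ C ∧ Disjoint C W := by
    intro i hi h2
    refine ⟨_, h.sc u (H z ((i : ℝ) / (N : ℝ))), right_mem _ _, left_mem _ _, ?_⟩
    rw [Set.disjoint_left]
    intro x hx hxW
    refine Set.disjoint_left.1 hWZ hxW (mem_iUnion₂.2 ⟨i, by simpa using hi, ?_⟩)
    rw [if_pos h2]
    exact hx
  have hpar := fun y (hyW : y ∈ W) (hyE : y ∉ EL u z) =>
    bk_par h D S.sat hj hu huB h1 hW hzW hWu hWt hyW hyE hP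
  obtain ⟨k1, k2, k3, k4⟩ := hpar y hyW hyE
  by_cases hg : ∀ s ∈ Icc (0:ℝ) 1, H y s ∉ Bk z B y → Wild H v e N (EL (H y s) y) →
      ∀ w ∈ EL (H y s) y, w ∉ Bk z B y
  · exact ⟨y, Bk z B y, ⟨k2, sat_bk S.sat y, k4, hg⟩, z_mem_bk B k3, sub_bk z B y⟩
  push Not at hg
  obtain ⟨s, hs, hsB, hsw, w, hw, hwB⟩ := hg
  have hG : Cont (EL (H y s) y) := h.el_cont _ _
  have hyG : y ∈ EL (H y s) y := mem_el _ _
  have hodd : pa H v e N y (Kz y (H y s)) = 1 := track_odd h D hs hsw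
  have hzG : z ∉ EL (H y s) y := by
    intro h2
    have h3 : pa H v e N z (Kz z (H y s)) = 1 := by
      rw [K_el h2, ← pa_const D hW hWt (satK hyW (H y s)) hyW hzW]
      exact hodd
    have h4 : EL (H y s) z = EL (H y s) y := el_eq h2
    have h5 : Wild H v e N (EL (H y s) z) := by
      rw [h4]
      exact hsw
    have h6 : u ∈ Kz z (H y s) := by
      rw [hu]
      exact odd_track h D h5 h3 (D.D.mem_t hj.le)
    apply hE
    rw [← el_K h h6]
    exact h5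
  obtain ⟨y₀, hy₀G, hy₀s, hfirst⟩ := first h z hG hyG
  have hy₀W : y₀ ∈ W := seg_sub hW hzW hyW hy₀s
  have hy₀E : y₀ ∉ EL u z := by
    intro h2
    apply hzG
    exact seg_sub hG hyG hy₀G (h.btw h2.2 fun h3 => hyE ⟨hWu hyW, h3⟩)
  obtain ⟨m1, m2, m3, m4⟩ := hpar y₀ hy₀W hy₀E
  refine ⟨y₀, Bk z B y₀, ⟨m2, sat_bk S.sat y₀, m4, ?_⟩, z_mem_bk B m3, sub_bk z B y₀⟩
  intro s₀ hs₀ hs₀B hs₀w w' hw'
  have hK : Kz y₀ (H y s) = Kz y (H y s) := K_el hy₀G
  have h2 : pa H v e N y₀ (Kz y₀ (H y s)) = 1 := by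
    rw [hK, ← pa_const D hW hWt (satK hyW (H y s)) hyW hy₀W]
    exact hodd
  have h3 : EL (H y s) y₀ = EL (H y s) y := el_eq hy₀G
  have h4 : Wild H v e N (EL (H y s) y₀) := by
    rw [h3]
    exact hsw
  have h5 : EL (H y₀ s₀) y₀ = EL (H y s) y := by
    rw [← h3]
    exact (el_K h (odd_track h D h4 h2 hs₀)).symm
  rw [h5] at hw'
  rintro (h6 | h6)
  · exact h6 (hfirst w' hw')
  · exact hzG (sat_mem S.sat hG hw' hyG h6 k1)

end Pool.FM57
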