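import Pool.Agent.Work.MP_36677d_fm.FM2

/-! # The next state, wild gates (helper57) -/

set_option autoImplicit false

open Set Filter Topology

namespace Pool.FM57

open Pool.TL94 Pool.FA57 Pool.FL57

variable {M : Type} [MetricSpace M] [CompactSpace M] {H : M → ℝ → M} {v : M → ℝ → ℝ} {e δ : ℝ}
  {N : ℕ}

/-- points of a wild gate near `z` are mapped behind the gate -/
theorem tame_part (h : LD M) (D : Dx H v e δ N) {z u : M} (hG : Wild H v e N (EL u z))
    (h1 : pa H v e N z (Kz z u) = 1) {C : Set M} (hC : Cont C) (hCG : C ⊆ EL u z) (hz : z ∈ C)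
    (hCt : ¬ Wild H v e N C) {x : M} (hx : x ∈ C) {t : ℝ} (ht : t ∈ Icc (0:ℝ) 1) :
    H x t ∈ Kz x u := by
  have h2 : Kz x u = Kz z u := K_el (hCG hx)
  have h3 : EL u x = EL u z := el_eq (hCG hx)
  refine odd_track h D (by rw [h3]; exact hG) ?_ ht
  rw [h2, ← pa_const D hC hCt (satK hz u) hz hx]
  exact h1

/-- the next state, wild gate -/
theorem succ_wild (h : LD M) (D : Dx H v e δ N) {z : M} {B : Set M} (S : Stt H v e N z B)
    {u : M} (hGB : ∀ w ∈ EL u z, w ∉ B)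
    (h1 : pa H v e N z (Kz z u) = 1) (hG : Wild H v e N (EL u z)) :
    ∃ y B', Stt H v e N y B' ∧ z ∈ B' ∧ B ⊆ B' := by
  have hGc : Cont (EL u z) := h.el_cont u z
  have hzG : z ∈ EL u z := mem_el u z
  have hout : ∀ x ∈ EL u z, ∀ g ∈ EL u z, g ∉ Kz x u := by
    intro x hx g hg h2
    apply h2
    exact seg_mono (show z ∈ seg u g from hg.2) hx.1
  obtain ⟨Δ, hΔ, ⟨hzΔ, hΔw⟩, hΔG, hmin⟩ := exists_minc
    (P := fun C => z ∈ C ∧ Wild H v e N C) (K₀ := EL u z) ⟨hGc, hzG, hG⟩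
    (fun K hK => ⟨z, hK.1⟩) (by
      intro K hK hdec
      exact ⟨mem_iInter.2 fun n => (hK n).2.1,
        wild_dec D (fun n => (hK n).1.cpt) hdec fun n => (hK n).2.2⟩)
  obtain ⟨a, haΔ, s, hs, has⟩ := wild_self D hΔw
  have haG : a ∈ EL u z := hΔG haΔ
  have hat : ∀ C, Cont C → C ⊆ EL u z → z ∈ C → ¬ Wild H v e N C → a ∉ C := by
    intro C hC hCG hz hCt ha
    exact hout a haG _ (hΔG has) (tame_part h D hG h1 hC hCG hz hCt ha hs)
  have hza : a ≠ z := fun h2 => hat {z} (cont_singleton z) (singleton_subset_iff.2 hzG) rfl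
    (not_wild_point D Subset.rfl) h2
  have hsΔ : seg z a ⊆ Δ := seg_sub hΔ hzΔ haΔ
  have hLc : Cont (EL z a) := h.el_cont z a
  have hzL : z ∉ EL z a := by
    intro h2
    have h3 := h2.2
    rw [seg_self] at h3
    exact hza h3
  have hL : Wild H v e N (EL z a) := by
    by_contra hLt
    obtain ⟨y, W, hW, hyW, hyL, hLW, hWs, hWt, hWz⟩ := h.step D (T₀ := EL z a) (G₀ := seg z a)
      (Z := {z}) hLc ⟨a, mem_el z a⟩ (h.sc z a) (el_sub z a) hLt isClosed_singleton (by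
        rw [Set.disjoint_left]
        intro x hx hxz
        rw [mem_singleton_iff.1 hxz] at hx
        exact hzL hx) ⟨z, left_mem _ _, rfl⟩
    have hys : y ∈ seg z a := hWs hyW
    have hay : a ∉ seg z y := fun h2 => hyL ⟨hys, h2⟩
    have hyΔ : y ∈ Δ := hsΔ hys
    have hsy : seg z y ⊆ Δ := seg_sub hΔ hzΔ hyΔ
    have ht : ¬ Wild H v e N (seg z y) := by
      intro h2
      exact hay (hmin _ (h.sc z y) ⟨left_mem _ _, h2⟩ hsy haΔ)
    have h2 : ∀ t ∈ Icc (0:ℝ) 1, H y t ∈ Kz y u := fun t ht' =>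
      tame_part h D hG h1 (h.sc z y) (hsy.trans hΔG) (left_mem _ _) ht (right_mem _ _) ht'
    have h3 : pa H v e N y (Kz y u) = 1 := pa_one D fun i hi _ => h2 _ (D.D.mem_t hi.le)
    have haW : a ∈ W := hLW (mem_el z a)
    have h4 : Kz a u = Kz y u := by
      rw [K_el haG, K_el (hΔG hyΔ)]
    have h5 : pa H v e N a (Kz a u) = 1 := by
      rw [h4, ← pa_const D hW hWt (satK hyW u) hyW haW]
      exact h3
    refine hout a haG _ (hΔG has) (odd_track h D ?_ h5 hs)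
    rw [el_eq haG]
    exact hG
  obtain ⟨a', ha', s', hs', hg⟩ := wild_self D hL
  have hsa' : seg z a' = seg z a := el_seg ha'
  have hLG : EL z a ⊆ EL u z := (el_sub z a).trans (hsΔ.trans hΔG)
  have hLB : ∀ x ∈ EL z a, x ∉ B := fun x hx => hGB x (hLG hx)
  have hLs : ∀ x ∈ EL z a, ∀ x' ∈ EL z a, x ∈ seg z x' := by
    intro x hx x' hx'
    rw [el_seg hx']
    exact hx.1
  have hane : a' ≠ z := by
    rintro rfl
    exact hzL ha'
  have hLBk : ∀ x ∈ EL z a, x ∉ Bk z B a' := by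
    rintro x hx (h2 | h2)
    · exact h2 (hLs a' ha' x hx)
    · exact hLB x hx h2
  have htr : ∀ t ∈ Icc (0:ℝ) 1, H a' t ∉ Bk z B a' := by
    intro t ht hB
    have hjn : Joined (H a' t) (H a' s') := joined_track D.D.cH a' ht hs'
    obtain ⟨x, hx, hxg⟩ := wild_ne D hL (H a' s')
    by_cases hc : a' ∈ seg z (H a' t)
    · have h2 : H a' t ∈ B := hB.resolve_left fun h3 => h3 hc
      have h3 : z ∈ seg (H a' s') (H a' t) := sat_mem S.sat (h.sc _ _) (right_mem _ _)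
        (left_mem _ _) h2 (hLB _ hg)
      have h4 : Joined z (H a' s') := (joined_of_mem_seg h.hu hjn.symm h3).symm
      exact hxg (seg_antisymm h.hu h4 (hLs x hx _ hg) (hLs _ hg x hx))
    · have h2 : ∀ x' ∈ EL z a, x' ∉ seg z (H a' t) := fun x' hx' h3 =>
        hc (seg_mono h3 (hLs a' ha' x' hx'))
      exact hxg (seg_antisymm h.hu hjn (h.btw (hLs x hx _ hg) (h2 x hx))
        (h.btw (hLs _ hg x hx) (h2 _ hg)))
  refine ⟨a', Bk z B a', ⟨hLBk a' ha', sat_bk S.sat a', pa_none D fun i hi _ =>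
    htr _ (D.D.mem_t hi.le), ?_⟩, z_mem_bk B hane, sub_bk z B a'⟩
  intro s₀ hs₀ _ hw w hwE
  obtain ⟨x, hx, hxa⟩ := wild_ne D hw a'
  have h2 : H a' s' ∈ Kz a' (H a' s₀) := track h D.D.cH hs₀ hx hxa hs'
  have h3 : w ∈ seg (H a' s') a' := h.btw hwE.1 fun h4 => h2 (seg_mono h4 hwE.2)
  exact hLBk w (seg_sub hLc hg ha' h3)

end Pool.FM57
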