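import Pool.Agent.Work.MP_36677d_fm.FM3

/-! # Limits of states (helper57) -/

set_option autoImplicit false

open Set Filter Topology

namespace Pool.FM57

open Pool.TL94 Pool.FA57 Pool.FL57

variable {M : Type} [MetricSpace M] {H : M → ℝ → M} {v : M → ℝ → ℝ} {e δ : ℝ} {N : ℕ}

/-- increasing sequences of states -/
structure Sq (H : M → ℝ → M) (v : M → ℝ → ℝ) (e : ℝ) (N : ℕ) (z : ℕ → M) (B : ℕ → Set M) :
    Prop where
  st : ∀ n, Stt H v e N (z n) (B n)
  mem : ∀ n, z n ∈ B (n + 1)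
  sub : ∀ n, B n ⊆ B (n + 1)

variable {z : ℕ → M} {B : ℕ → Set M}

theorem Sq.mono (S : Sq H v e N z B) {n m : ℕ} (hnm : n ≤ m) : B n ⊆ B m :=
  monotone_nat_of_le_succ S.sub hnm

theorem Sq.lt (S : Sq H v e N z B) {n m : ℕ} (hnm : n < m) : z n ∈ B m :=
  S.mono (show n + 1 ≤ m from hnm) (S.mem n)

theorem Sq.nz (S : Sq H v e N z B) {n m : ℕ} (hnm : n ≤ m) : z m ∉ B n :=
  fun h => (S.st m).nz (S.mono hnm h)

theorem Sq.btw (S : Sq H v e N z B) {a b c : ℕ} (hab : a ≤ b) (hbc : b ≤ c) :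
    z b ∈ seg (z a) (z c) := by
  rcases hab.lt_or_eq with h1 | h1
  · intro C hC ha hc
    exact sat_mem (S.st b).sat hC ha hc (S.lt h1) (S.nz hbc)
  · rw [h1]
    exact left_mem _ _

/-- a continuum which contains a point of `B n` and a point outside all `B m` contains the tail -/
theorem Sq.cut [CompactSpace M] (S : Sq H v e N z B) {C : Set M} (hC : Cont C) {x w : M}
    (hx : x ∈ C) (hw : w ∈ C) {n : ℕ} (hxB : x ∈ B n) (hwB : ∀ m, w ∉ B m) :
    Tl z n ⊆ C :=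
  tl_sub hC fun m hm => sat_mem (S.st m).sat hC hx hw (S.mono hm hxB) (hwB m)

variable [CompactSpace M]

theorem Sq.tail (S : Sq H v e N z B) {Q : Set M} (hQ : Cont Q) (hf : ¬ Ev z Q) :
    ∃ l, Tl z l ⊆ Q := by
  have hf' : ∀ l₀, ∃ l, l₀ ≤ l ∧ z l ∈ Q := by
    intro l₀
    by_contra hcon
    push Not at hcon
    exact hf ⟨l₀, hcon⟩
  obtain ⟨l₁, -, h1⟩ := hf' 0
  refine ⟨l₁, tl_sub hQ fun k hk => ?_⟩
  obtain ⟨l', hl', h2⟩ := hf' k
  exact seg_sub hQ h1 h2 (S.btw hk hl')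

/-- the limit set is in front of the sequence -/
theorem Sq.lm (h : LD M) (S : Sq H v e N z B) {y : M} (hy : y ∈ Lm z) (n : ℕ) : y ∉ B n := by
  intro hyB
  have h2 : ∀ k, Tl z n ⊆ Tl z k := by
    intro k
    refine tl_sub (h.tl z k) fun j hj => ?_
    rcases le_or_gt k j with hkj | hjk
    · exact mem_tl hkj
    · exact sat_mem (S.st j).sat (h.tl z k) (lm_in hy k) (mem_tl le_rfl) (S.mono hj hyB)
        (S.nz hjk.le)
  have hne : z n ≠ z (n + 1) := by
    intro h3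
    apply (S.st (n + 1)).nz
    rw [← h3]
    exact S.mem n
  obtain ⟨A, A', hA, hA', -, -, hnA, hnA', hAA⟩ := h.hd (Tl z n) (h.tl z n) (z n)
    (mem_tl le_rfl) (z (n + 1)) (mem_tl (Nat.le_succ n)) hne
  have hE : ∀ C : Set M, Cont C → ¬ Tl z n ⊆ C → Ev z C := by
    intro C hC hn
    by_contra h3
    obtain ⟨l, hl⟩ := S.tail hC h3
    exact hn ((h2 l).trans hl)
  obtain ⟨a, ha⟩ := (hE A hA hnA).union (hE A' hA' hnA')
  exact ha (max a n) (le_max_left _ _) (hAA (mem_tl (le_max_right _ _)))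

theorem LD.lm_cont (h : LD M) (z : ℕ → M) : Cont (Lm z) := by
  refine ⟨(isClosed_iInter fun n => isClosed_closure).isCompact, ?_⟩
  refine conn_dir (fun n => Tl z n) ?_ (fun n => (h.tl z n).cpt) (fun n => (h.tl z n).con)
  intro n m
  exact ⟨max n m, h.tl_anti z (le_max_left _ _), h.tl_anti z (le_max_right _ _)⟩

/-- the limit state -/
theorem Sq.lim (h : LD M) (D : Dx H v e δ N) (S : Sq H v e N z B) :
    ∃ a, Stt H v e N a (⋃ n, B n) := by
  have hL : ∀ x ∈ Lm z, x ∉ ⋃ n, B n := by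
    intro x hx h1
    obtain ⟨n, hn⟩ := mem_iUnion.1 h1
    exact S.lm h hx n hn
  have hsat : ∀ a ∈ Lm z, SatW {a} (⋃ n, B n) := by
    intro a ha
    have key : ∀ C : Set M, Cont C → Disjoint C {a} → ∀ x ∈ C, ∀ w ∈ C, x ∈ (⋃ n, B n) →
        w ∈ ⋃ n, B n := by
      intro C hC hd x hx w hw hxB
      by_contra hwB
      obtain ⟨n, hn⟩ := mem_iUnion.1 hxB
      exact Set.disjoint_left.1 hd (S.cut hC hx hw hn (fun m hm => hwB (mem_iUnion.2 ⟨m, hm⟩))
        (lm_in ha n)) rfl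
    exact fun C hC hd x hx w hw => ⟨key C hC hd x hx w hw, key C hC hd w hw x hx⟩
  have hLc : Cont (Lm z) := LD.lm_cont h z
  by_cases hw : Wild H v e N (Lm z)
  · obtain ⟨a, ha, s, hs, hg⟩ := wild_self D hw
    have htr : ∀ t ∈ Icc (0:ℝ) 1, H a t ∉ ⋃ n, B n := by
      intro t ht hB
      obtain ⟨n, hn⟩ := mem_iUnion.1 hB
      obtain ⟨x, hx, hxg⟩ := wild_ne D hw (H a s)
      have hjn : Joined (H a t) (H a s) := joined_track D.D.cH a ht hs
      have h1 : Tl z n ⊆ seg (H a t) (H a s) := S.cut (h.sc _ _) (left_mem _ _)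
        (right_mem _ _) hn (S.lm h hg)
      have h2 : Tl z n ⊆ seg (H a t) x := S.cut (h.sc _ _) (left_mem _ _) (right_mem _ _) hn
        (S.lm h hx)
      exact hxg (seg_antisymm h.hu hjn (h1 (lm_in hx n)) (h2 (lm_in hg n)))
    refine ⟨a, hL a ha, hsat a ha, pa_none D fun i hi _ => htr _ (D.D.mem_t hi.le), ?_⟩
    intro s₀ hs₀ _ hw' w hwE
    obtain ⟨x, hx, hxa⟩ := wild_ne D hw' a
    have h2 : H a s ∈ Kz a (H a s₀) := track h D.D.cH hs₀ hx hxa hs
    have h3 : w ∈ seg (H a s) a := h.btw hwE.1 fun h4 => h2 (seg_mono h4 hwE.2)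
    exact hL w (seg_sub hLc hg ha h3)
  · obtain ⟨n₁, hn₁⟩ : ∃ n₁, ¬ Wild H v e N (Tl z n₁) := by
      by_contra hcon
      push Not at hcon
      exact hw (wild_dec D (fun n => (h.tl z n).cpt) (fun n => h.tl_anti z (Nat.le_succ n)) hcon)
    obtain ⟨a, ha⟩ := h.lm_nonempty z
    have haT : a ∈ Tl z n₁ := lm_in ha n₁
    refine ⟨a, hL a ha, hsat a ha, ?_, ?_⟩
    · have h1 : ∀ i : ℕ, ∃ k, H a ((i : ℝ) / (N : ℝ)) ∈ (⋃ n, B n) →
          H a ((i : ℝ) / (N : ℝ)) ∈ B k := by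
        intro i
        by_cases hi : H a ((i : ℝ) / (N : ℝ)) ∈ ⋃ n, B n
        · obtain ⟨k, hk⟩ := mem_iUnion.1 hi
          exact ⟨k, fun _ => hk⟩
        · exact ⟨0, fun h2 => absurd h2 hi⟩
      choose k hk using h1
      obtain ⟨m, hm⟩ : ∃ m, m = (Finset.range N).sup k + n₁ := ⟨_, rfl⟩
      have hzT : z m ∈ Tl z n₁ := mem_tl (by omega)
      rw [← (S.st m).even, pa_const D (h.tl z n₁) hn₁ (sat_mono (S.st m).sat hzT) hzT haT]
      refine pa_congr D fun i hi _ => ⟨fun h2 => S.mono ?_ (hk i h2), fun h2 =>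
        mem_iUnion.2 ⟨m, h2⟩⟩
      have h5 : k i ≤ (Finset.range N).sup k := Finset.le_sup (f := k) (Finset.mem_range.2 hi)
      omega
    · intro s hs hsB hsw w hwE hwB
      obtain ⟨n, hn⟩ := mem_iUnion.1 hwB
      have hG : Cont (EL (H a s) a) := h.el_cont _ _
      obtain ⟨m, hm⟩ : ∃ m, m = n + n₁ := ⟨_, rfl⟩
      have hzG : z m ∈ EL (H a s) a := S.cut hG hwE (mem_el _ _) hn (S.lm h ha)
        (mem_tl (by omega))
      have hzT : z m ∈ Tl z n₁ := mem_tl (by omega)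
      have h1 : pa H v e N (z m) (Kz (z m) (H a s)) = 1 := by
        rw [K_el hzG, ← pa_const D (h.tl z n₁) hn₁ (satK haT (H a s)) haT hzT]
        exact track_odd h D hs hsw
      have h2 : EL (H a s) (z m) = EL (H a s) a := el_eq hzG
      have h3 : Wild H v e N (EL (H a s) (z m)) := by
        rw [h2]
        exact hsw
      have h4 : H (z m) s ∈ Kz (z m) (H a s) := odd_track h D h3 h1 hs
      have h5 : EL (H (z m) s) (z m) = EL (H a s) a := by
        rw [← h2]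
        exact (el_K h h4).symm
      refine (S.st m).gate s hs ?_ ?_ w ?_ (S.mono (by omega) hn)
      · intro h6
        refine h4 (sat_mem (S.st m).sat (h.sc (H a s) (H (z m) s)) (right_mem _ _)
          (left_mem _ _) h6 fun h7 => hsB (mem_iUnion.2 ⟨m, h7⟩))
      · rw [h5]
        exact hsw
      · rw [h5]
        exact hwE

end Pool.FM57
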