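import Pool.Agent.Work.MP_36677d_fm.FM4

/-! # Chains of states, the contradiction (helper57) -/

set_option autoImplicit false

open Set Filter Topology

namespace Pool.FM57

open Pool.TL94 Pool.FA57 Pool.FL57

variable {M : Type} [MetricSpace M]

/-- chains without a last element have countable cofinality -/
theorem countable_cofinal [SecondCountableTopology M] (h : LD M) {α : Type*}
    {r : α → α → Prop} (htr : ∀ {a b c : α}, r a b → r b c → r a c) (z : α → M)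
    (hbt : ∀ {a b c : α}, r a b → r b c → z b ∈ seg (z a) (z c))
    (hne : ∀ {a b : α}, r a b → z a ≠ z b) {c : Set α} (hc : c.Nonempty)
    (hup : ∀ a ∈ c, ∀ b ∈ c, ∃ d ∈ c, r a d ∧ r b d)
    (hun : ∀ g : ℕ → α, (∀ n, g n ∈ c) → ∃ s ∈ c, ∀ n, r (g n) s) : False := by
  classical
  obtain ⟨V, hVo, hVb⟩ := exists_basis_seq (M := M)
  obtain ⟨a₀, ha₀⟩ := hc
  -- stabilisation from below
  have hT : ∀ s ∈ c, ∃ t ∈ c, r s t ∧ ∀ s' ∈ c, r s s' → seg (z s) (z s') ⊆ seg (z s) (z t) := by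
    intro s hs
    obtain ⟨g, hg⟩ : ∃ g : ℕ → α, ∀ n, g n ∈ c ∧
        ((∃ s' ∈ c, r s s' ∧ (seg (z s) (z s') ∩ V n).Nonempty) →
          r s (g n) ∧ (seg (z s) (z (g n)) ∩ V n).Nonempty) := by
      have : ∀ n, ∃ x, x ∈ c ∧ ((∃ s' ∈ c, r s s' ∧ (seg (z s) (z s') ∩ V n).Nonempty) →
          r s x ∧ (seg (z s) (z x) ∩ V n).Nonempty) := by
        intro n
        by_cases h1 : ∃ s' ∈ c, r s s' ∧ (seg (z s) (z s') ∩ V n).Nonempty
        · obtain ⟨s', hs', h2, h3⟩ := h1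
          exact ⟨s', hs', fun _ => ⟨h2, h3⟩⟩
        · exact ⟨s, hs, fun h2 => absurd h2 h1⟩
      choose g hg using this
      exact ⟨g, hg⟩
    obtain ⟨t₀, ht₀, hgt⟩ := hun g fun n => (hg n).1
    obtain ⟨t, ht, h1, h2⟩ := hup s hs t₀ ht₀
    refine ⟨t, ht, h1, fun s' hs' hss' x hx => ?_⟩
    by_contra hxt
    obtain ⟨n, hn1, hn2⟩ := hVb x (seg (z s) (z t))ᶜ (isClosed_seg _ _).isOpen_compl hxt
    obtain ⟨h3, y, hy1, hy2⟩ := (hg n).2 ⟨s', hs', hss', x, hx, hn1⟩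
    refine hn2 hy2 (seg_mono ?_ hy1)
    exact hbt h3 (htr (hgt n) h2)
  choose! τ hτc hτr hτs using hT
  -- stabilisation from above
  obtain ⟨s₁, hs₁, hst⟩ : ∃ s₁ ∈ c, ∀ s ∈ c, r s₁ s →
      seg (z s₁) (z (τ s₁)) ⊆ seg (z s) (z (τ s)) := by
    have hdec : ∀ s ∈ c, ∀ s' ∈ c, r s s' → seg (z s') (z (τ s')) ⊆ seg (z s) (z (τ s)) := by
      intro s hs s' hs' hss'
      have h1 : r s (τ s') := htr hss' (hτr s' hs')
      refine Subset.trans ?_ (hτs s hs (τ s') (hτc s' hs') h1)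
      exact seg_sub (h.sc _ _) (hbt hss' (hτr s' hs')) (right_mem _ _)
    obtain ⟨g, hg⟩ : ∃ g : ℕ → α, ∀ n, g n ∈ c ∧
        ((∃ s ∈ c, Disjoint (seg (z s) (z (τ s))) (V n)) →
          Disjoint (seg (z (g n)) (z (τ (g n)))) (V n)) := by
      have : ∀ n, ∃ x, x ∈ c ∧ ((∃ s ∈ c, Disjoint (seg (z s) (z (τ s))) (V n)) →
          Disjoint (seg (z x) (z (τ x))) (V n)) := by
        intro n
        by_cases h1 : ∃ s ∈ c, Disjoint (seg (z s) (z (τ s))) (V n)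
        · obtain ⟨s, hs, h2⟩ := h1
          exact ⟨s, hs, fun _ => h2⟩
        · exact ⟨a₀, ha₀, fun h2 => absurd h2 h1⟩
      choose g hg using this
      exact ⟨g, hg⟩
    obtain ⟨s₁, hs₁, hgs⟩ := hun g fun n => (hg n).1
    refine ⟨s₁, hs₁, fun s hs _ x hx => ?_⟩
    by_contra hxs
    obtain ⟨n, hn1, hn2⟩ := hVb x (seg (z s) (z (τ s)))ᶜ (isClosed_seg _ _).isOpen_compl hxs
    have h1 := (hg n).2 ⟨s, hs, by
      rw [Set.disjoint_left]
      exact fun y hy hyV => hn2 hyV hy⟩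
    exact Set.disjoint_left.1 h1 (hdec _ (hg n).1 s₁ hs₁ (hgs n) hx) hn1
  -- three points
  have hs₂ := hτc s₁ hs₁
  have h12 := hτr s₁ hs₁
  obtain ⟨s₂, hs₂d⟩ : ∃ s₂, s₂ = τ s₁ := ⟨_, rfl⟩
  have hτ₁ := hτs s₁ hs₁
  have hst₂ := hst (τ s₁) hs₂ h12
  rw [← hs₂d] at hs₂ h12 hτ₁ hst₂
  have hs₃ := hτc s₂ hs₂
  have h23 := hτr s₂ hs₂
  obtain ⟨s₃, hs₃d⟩ : ∃ s₃, s₃ = τ s₂ := ⟨_, rfl⟩
  rw [← hs₃d] at hs₃ h23 hst₂
  have h13 : r s₁ s₃ := htr h12 h23
  have k1 : seg (z s₁) (z s₃) ⊆ seg (z s₁) (z s₂) := hτ₁ s₃ hs₃ h13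
  have k2 : seg (z s₁) (z s₂) ⊆ seg (z s₁) (z s₃) := seg_mono (hbt h12 h23)
  have k3 : seg (z s₁) (z s₂) ⊆ seg (z s₂) (z s₃) := hst₂
  have k4 : z s₃ ∈ seg (z s₁) (z s₂) := k1 (right_mem _ _)
  obtain ⟨A, A', hA, hA', -, -, hnA, hnA', hAA⟩ := h.hd _ (h.sc (z s₁) (z s₂)) (z s₁)
    (left_mem _ _) (z s₂) (right_mem _ _) (hne h12)
  have hfin : ∀ A A' : Set M, Cont A → Cont A' → ¬ seg (z s₁) (z s₂) ⊆ A →
      ¬ seg (z s₁) (z s₂) ⊆ A' → z s₁ ∈ A → z s₂ ∈ A ∪ A' → z s₃ ∈ A ∪ A' → False := by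
    intro A A' hA hA' hnA hnA' h1 h2 h3
    rcases h2 with h2 | h2
    · exact hnA (seg_sub hA h1 h2)
    · rcases h3 with h3 | h3
      · exact hnA (k2.trans (seg_sub hA h1 h3))
      · exact hnA' (k3.trans (seg_sub hA' h2 h3))
  rcases hAA (left_mem _ _) with h1 | h1
  · exact hfin A A' hA hA' hnA hnA' h1 (hAA (right_mem _ _)) (hAA k4)
  · exact hfin A' A hA' hA hnA' hnA h1 (by rw [union_comm]; exact hAA (right_mem _ _))
      (by rw [union_comm]; exact hAA k4)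

variable {H : M → ℝ → M} {v : M → ℝ → ℝ} {e δ : ℝ} {N : ℕ} [CompactSpace M]

/-- there is always a next state -/
theorem succ_state (h : LD M) (D : Dx H v e δ N) {z : M} {B : Set M} (S : Stt H v e N z B) :
    ∃ y B', Stt H v e N y B' ∧ z ∈ B' ∧ B ⊆ B' := by
  have hnw : ¬ Wild H v e N ({z} : Set M) := not_wild_point D Subset.rfl
  have h1 : pa H v e N z Bᶜ = 1 := by
    have h2 : pa H v e N z B ≠ 1 := by
      rw [S.even]
      decide
    have h3 : ∀ a : ZMod 2, a ≠ 1 → a = 0 := by decide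
    by_contra h4
    have h5 : pa H v e N z Bᶜ = 0 := h3 _ h4
    have h6 : pa H v e N z B + pa H v e N z Bᶜ = pa H v e N z univ := by
      unfold pa
      rw [par_eq_sum, par_eq_sum, par_eq_sum, ← Finset.sum_add_distrib]
      refine Finset.sum_congr rfl fun j _ => ?_
      by_cases h2 : H z ((mdx j : ℝ) / (N : ℝ)) ∈ B
      · rw [if_pos h2, if_neg (fun h3 => h3 h2), if_pos (mem_univ _), add_zero]
      · rw [if_neg h2, if_pos (show H z ((mdx j : ℝ) / (N : ℝ)) ∈ Bᶜ from h2),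
          if_pos (mem_univ _), zero_add]
    rw [pa_univ D, S.even, h5] at h6
    exact absurd h6 (by decide)
  have hsat : SatW {z} Bᶜ := fun C hC hd a ha b hb => not_congr (S.sat C hC hd a ha b hb)
  obtain ⟨j, hj, hvj, hjB, hpar⟩ := odd_class D hnw hsat rfl h1
  rw [clz h] at hpar
  have huz : H z ((j : ℝ) / (N : ℝ)) ≠ z := by
    intro h2
    exact Set.disjoint_left.1 (di_disj hnw hj rfl hvj.le)
      (di_mem (H := H) (i := j) (show z ∈ ({z} : Set M) from rfl) D.D.N_pos).1 h2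
  by_cases hw : Wild H v e N (EL (H z ((j : ℝ) / (N : ℝ))) z)
  · exact succ_wild h D S (S.gate _ (D.D.mem_t hj.le) hjB hw) hpar hw
  · exact succ_tame h D S hj rfl hjB huz hpar hw

/-- there is no fixed point free data on a hereditarily decomposable, hereditarily unicoherent
continuum -/
theorem no_dx [Nonempty M] (h : LD M) (D : Dx H v e δ N) : False := by
  classical
  obtain ⟨p⟩ := (inferInstance : Nonempty M)
  obtain ⟨r, hr⟩ : ∃ r : {q : M × Set M // Stt H v e N q.1 q.2} →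
      {q : M × Set M // Stt H v e N q.1 q.2} → Prop, ∀ a b, r a b ↔
        a.1.1 ∈ b.1.2 ∧ a.1.2 ⊆ b.1.2 := ⟨_, fun _ _ => Iff.rfl⟩
  have hbase : Stt H v e N p ∅ := by
    refine ⟨notMem_empty _, fun C _ _ a _ b _ => Iff.rfl, pa_empty H v e N p, ?_⟩
    exact fun _ _ _ _ w _ => notMem_empty w
  have htr : ∀ {a b c : {q : M × Set M // Stt H v e N q.1 q.2}}, r a b → r b c → r a c := by
    intro a b c h1 h2
    rw [hr] at *
    exact ⟨h2.2 h1.1, h1.2.trans h2.2⟩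
  have hirr : ∀ a, ¬ r a a := by
    intro a h1
    rw [hr] at h1
    exact a.2.nz h1.1
  have hsucc : ∀ a, ∃ b, r a b := by
    rintro ⟨⟨z, B⟩, S⟩
    obtain ⟨y, B', S', h1, h2⟩ := succ_state h D S
    refine ⟨⟨(y, B'), S'⟩, ?_⟩
    rw [hr]
    exact ⟨h1, h2⟩
  have hlim : ∀ f : ℕ → {q : M × Set M // Stt H v e N q.1 q.2}, (∀ n, r (f n) (f (n + 1))) →
      ∃ b, ∀ n, r (f n) b := by
    intro f hf
    have S : Sq H v e N (fun n => (f n).1.1) (fun n => (f n).1.2) :=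
      ⟨fun n => (f n).2, fun n => ((hr _ _).1 (hf n)).1, fun n => ((hr _ _).1 (hf n)).2⟩
    obtain ⟨a, ha⟩ := S.lim h D
    refine ⟨⟨(a, _), ha⟩, fun n => ?_⟩
    rw [hr]
    exact ⟨mem_iUnion.2 ⟨n + 1, S.mem n⟩, fun x hx => mem_iUnion.2 ⟨n, hx⟩⟩
  obtain ⟨m, hm⟩ := exists_maximal_of_chains_bounded (r := r) (fun c hc => by
    by_cases hne : c.Nonempty
    swap
    · exact ⟨⟨(p, ∅), hbase⟩, fun a ha => absurd ⟨a, ha⟩ hne⟩
    by_cases hmax : ∃ a ∈ c, ∀ b ∈ c, b = a ∨ r b a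
    · obtain ⟨a, -, ha⟩ := hmax
      obtain ⟨b, hb⟩ := hsucc a
      refine ⟨b, fun x hx => ?_⟩
      rcases ha x hx with h1 | h1
      · rw [h1]
        exact hb
      · exact htr h1 hb
    push Not at hmax
    have hcmp : ∀ a ∈ c, ∀ b ∈ c, a ≠ b → r a b ∨ r b a := fun a ha b hb hab => hc ha hb hab
    have hnext : ∀ a ∈ c, ∃ b ∈ c, r a b := by
      intro a ha
      obtain ⟨b, hb, h1, h2⟩ := hmax a ha
      exact ⟨b, hb, (hcmp a ha b hb fun h3 => h1 h3.symm).resolve_right h2⟩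
    have hup : ∀ a ∈ c, ∀ b ∈ c, ∃ d ∈ c, r a d ∧ r b d := by
      intro a ha b hb
      by_cases hab : a = b
      · obtain ⟨d, hd, h1⟩ := hnext a ha
        exact ⟨d, hd, h1, hab ▸ h1⟩
      rcases hcmp a ha b hb hab with h1 | h1
      · obtain ⟨d, hd, h2⟩ := hnext b hb
        exact ⟨d, hd, htr h1 h2, h2⟩
      · obtain ⟨d, hd, h2⟩ := hnext a ha
        exact ⟨d, hd, h2, htr h1 h2⟩
    by_cases hun : ∀ g : ℕ → {q : M × Set M // Stt H v e N q.1 q.2}, (∀ n, g n ∈ c) →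
        ∃ s ∈ c, ∀ n, r (g n) s
    · exfalso
      refine countable_cofinal h (r := r) htr (fun a => a.1.1) ?_ ?_ hne hup hun
      · intro a b d h1 h2 C hC ha hd
        rw [hr] at h1 h2
        exact sat_mem b.2.sat hC ha hd h1.1 fun h3 => d.2.nz (h2.2 h3)
      · intro a b h1 h2
        rw [hr] at h1
        apply b.2.nz
        rw [← h2]
        exact h1.1
    push Not at hun
    obtain ⟨g, hgc, hg⟩ := hun
    have hcof : ∀ s ∈ c, ∃ n, s = g n ∨ r s (g n) := by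
      intro s hs
      obtain ⟨n, hn⟩ := hg s hs
      refine ⟨n, ?_⟩
      by_cases h1 : s = g n
      · exact Or.inl h1
      · exact Or.inr ((hcmp s hs _ (hgc n) h1).resolve_right hn)
    choose! U hUc hU1 hU2 using hup
    obtain ⟨f, hf0, hf⟩ : ∃ f : ℕ → {q : M × Set M // Stt H v e N q.1 q.2}, f 0 = g 0 ∧
        ∀ n, f (n + 1) = U (f n) (g n) :=
      ⟨fun n => Nat.rec (g 0) (fun n x => U x (g n)) n, rfl, fun _ => rfl⟩
    have hfc : ∀ n, f n ∈ c := by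
      intro n
      induction n with
      | zero => rw [hf0]; exact hgc 0
      | succ n ih => rw [hf]; exact hUc _ ih _ (hgc n)
    obtain ⟨b, hb⟩ := hlim f fun n => by
      rw [hf]
      exact hU1 _ (hfc n) _ (hgc n)
    refine ⟨b, fun s hs => ?_⟩
    obtain ⟨n, hn⟩ := hcof s hs
    have h1 : r (g n) (f (n + 1)) := by
      rw [hf]
      exact hU2 _ (hfc n) _ (hgc n)
    have h2 : r (g n) b := htr h1 (hb (n + 1))
    rcases hn with h3 | h3
    · rw [h3]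
      exact h2
    · exact htr h3 h2) (fun {a b c} h1 h2 => htr h1 h2)
  obtain ⟨b, hb⟩ := hsucc m
  exact hirr m (htr hb (hm b hb))

end Pool.FM57
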