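import Pool.Agent.Work.MP_36677d_fm.FM5
import Pool.Agent.Work.MP_36677d_gt_h94.TreeLike

/-! # The theorem for hereditarily decomposable tree-like continua (helper57) -/

set_option autoImplicit false

open Set Filter Topology

namespace Pool.FM57

open Pool.TL94 Pool.FA57 Pool.FL57

variable {M : Type} [MetricSpace M] [CompactSpace M]

theorem hu_of_closed
    (hU : ∀ A B : Set M, IsClosed A → IsConnected A → IsClosed B → IsConnected B →
      IsPreconnected (A ∩ B)) : HU M := by
  intro A B hA hA' hB hB'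
  rcases A.eq_empty_or_nonempty with h1 | h1
  · rw [h1, empty_inter]
    exact isPreconnected_empty
  rcases B.eq_empty_or_nonempty with h2 | h2
  · rw [h2, inter_empty]
    exact isPreconnected_empty
  exact hU A B hA.isClosed ⟨h1, hA'⟩ hB.isClosed ⟨h2, hB'⟩

/-- the theorem -/
theorem mainM [ConnectedSpace M]
    (hd : ∀ X : Set M, IsClosed X → IsConnected X → X.Nontrivial → ∃ A B : Set M,
      IsClosed A ∧ IsConnected A ∧ IsClosed B ∧ IsConnected B ∧ A ≠ X ∧ B ≠ X ∧ A ∪ B = X)
    (hT : TreeLike M ∨ ∀ A B : Set M, IsClosed A → IsConnected A → IsClosed B → IsConnected B →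
      IsPreconnected (A ∩ B))
    (g : C(M × unitInterval, M × unitInterval)) : ∃ p, g p = p := by
  have hHU : HU M := by
    rcases hT with h1 | h1
    · exact h1.hu
    · exact hu_of_closed h1
  have h : LD M := by
    refine ⟨hHU, fun a b => cont_seg_of hHU ⟨isCompact_univ, isPreconnected_univ⟩ (mem_univ a)
      (mem_univ b), ?_⟩
    intro C hC x hx y hy hxy
    obtain ⟨A, B, h1, h2, h3, h4, h5, h6, h7⟩ := hd C hC.cpt.isClosed ⟨⟨x, hx⟩, hC.con⟩
      ⟨x, hx, y, hy, hxy⟩
    have hA : A ⊆ C := by rw [← h7]; exact subset_union_left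
    have hB : B ⊆ C := by rw [← h7]; exact subset_union_right
    exact ⟨A, B, ⟨h1.isCompact, h2.isPreconnected⟩, ⟨h3.isCompact, h4.isPreconnected⟩, hA, hB,
      fun h8 => h5 (Subset.antisymm hA h8), fun h8 => h6 (Subset.antisymm hB h8), h7.ge⟩
  by_contra hcon
  push Not at hcon
  obtain ⟨v, e, δ, N, D⟩ := exists_dx g hcon
  exact no_dx h D

end Pool.FM57
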