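import Pool.Agent.Work.MP_36677d_fm.FM6

/-! # Closures of path components (helper57) -/

set_option autoImplicit false

open Set Filter Topology

namespace Pool.FM57

open Pool.TL94 Pool.FA57 Pool.FL57

variable {M : Type} [MetricSpace M] [CompactSpace M]

/-- every nondegenerate subcontinuum of `M` contained in `Q` is decomposable -/
def HDec (Q : Set M) : Prop :=
  ∀ X ⊆ Q, IsClosed X → IsConnected X → X.Nontrivial → ∃ A B : Set M,
    IsClosed A ∧ IsConnected A ∧ IsClosed B ∧ IsConnected B ∧ A ≠ X ∧ B ≠ X ∧ A ∪ B = X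

theorem isConnected_val {Q : Set M} {A : Set Q} :
    IsConnected (Subtype.val '' A) ↔ IsConnected A := by
  constructor
  · rintro ⟨h1, h2⟩
    exact ⟨h1.of_image, IsInducing.subtypeVal.isPreconnected_image.1 h2⟩
  · rintro ⟨h1, h2⟩
    exact ⟨h1.image _, IsInducing.subtypeVal.isPreconnected_image.2 h2⟩

/-- invariant subcontinua -/
theorem mainQ (hT : TreeLike M ∨ ∀ A B : Set M, IsClosed A → IsConnected A → IsClosed B →
      IsConnected B → IsPreconnected (A ∩ B))
    {Q : Set M} (hQ : IsClosed Q) (hQc : IsConnected Q) (hd : HDec Q)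
    (g : C(M × unitInterval, M × unitInterval)) (hg : ∀ x ∈ Q, ∀ t, (g (x, t)).1 ∈ Q) :
    ∃ p, g p = p := by
  have hHU : HU M := by
    rcases hT with h1 | h1
    · exact h1.hu
    · exact hu_of_closed h1
  have : CompactSpace Q := isCompact_iff_compactSpace.1 hQ.isCompact
  have : ConnectedSpace Q := isConnected_iff_connectedSpace.1 hQc
  have hcl : ∀ A : Set Q, IsClosed A → IsClosed (Subtype.val '' A : Set M) := fun A hA =>
    (hA.isCompact.image continuous_subtype_val).isClosed
  have hU : ∀ A B : Set Q, IsClosed A → IsConnected A → IsClosed B → IsConnected B →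
      IsPreconnected (A ∩ B) := by
    intro A B hA hA' hB hB'
    rw [← IsInducing.subtypeVal.isPreconnected_image, image_inter Subtype.val_injective]
    exact hHU _ _ (hcl A hA).isCompact (isConnected_val.2 hA').isPreconnected
      (hcl B hB).isCompact (isConnected_val.2 hB').isPreconnected
  have hdQ : ∀ X : Set Q, IsClosed X → IsConnected X → X.Nontrivial → ∃ A B : Set Q,
      IsClosed A ∧ IsConnected A ∧ IsClosed B ∧ IsConnected B ∧ A ≠ X ∧ B ≠ X ∧ A ∪ B = X := by
    intro X hX hXc hXn
    obtain ⟨A, B, h1, h2, h3, h4, h5, h6, h7⟩ := hd (Subtype.val '' X)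
      (by rintro _ ⟨x, -, rfl⟩; exact x.2) (hcl X hX) (isConnected_val.2 hXc)
      (hXn.image Subtype.val_injective)
    have hAQ : A ⊆ Q := by
      intro a ha
      have h8 : a ∈ Subtype.val '' X := by rw [← h7]; exact Or.inl ha
      obtain ⟨x, -, rfl⟩ := h8
      exact x.2
    have hBQ : B ⊆ Q := by
      intro a ha
      have h8 : a ∈ Subtype.val '' X := by rw [← h7]; exact Or.inr ha
      obtain ⟨x, -, rfl⟩ := h8
      exact x.2
    have hA : (Subtype.val '' (Subtype.val ⁻¹' A : Set Q) : Set M) = A := by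
      rw [Subtype.image_preimage_coe, inter_eq_right.2 hAQ]
    have hB : (Subtype.val '' (Subtype.val ⁻¹' B : Set Q) : Set M) = B := by
      rw [Subtype.image_preimage_coe, inter_eq_right.2 hBQ]
    refine ⟨Subtype.val ⁻¹' A, Subtype.val ⁻¹' B, h1.preimage continuous_subtype_val,
      isConnected_val.1 (by rw [hA]; exact h2), h3.preimage continuous_subtype_val,
      isConnected_val.1 (by rw [hB]; exact h4), ?_, ?_, ?_⟩
    · intro h8
      apply h5
      rw [← h8, hA]
    · intro h8
      apply h6
      rw [← h8, hB]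
    · rw [← preimage_union, h7]
      exact preimage_image_eq X Subtype.val_injective
  obtain ⟨⟨x, t⟩, h1⟩ := mainM (M := Q) hdQ (Or.inr hU)
    ⟨fun q => (⟨(g (q.1.1, q.2)).1, hg _ q.1.2 q.2⟩, (g (q.1.1, q.2)).2), by fun_prop⟩
  refine ⟨(x.1, t), ?_⟩
  have h2 := congrArg (fun q : Q × unitInterval => (q.1.1, q.2)) h1
  exact h2

/-- the theorem for closures of path components -/
theorem mainP [ConnectedSpace M]
    (hT : TreeLike M ∨ ∀ A B : Set M, IsClosed A → IsConnected A → IsClosed B → IsConnected B →
      IsPreconnected (A ∩ B))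
    (hd : HDec (univ : Set M) ∨ ((∀ f : C(M, M), ∃ x, Joined x (f x)) ∧
      ∀ x : M, HDec (closure (pathComponent x))))
    (g : C(M × unitInterval, M × unitInterval)) : ∃ p, g p = p := by
  rcases hd with h1 | ⟨h1, h2⟩
  · exact mainQ hT isClosed_univ isConnected_univ h1 g fun _ _ _ => mem_univ _
  obtain ⟨x, hx⟩ := h1 ⟨fun y => (g (y, 0)).1, by fun_prop⟩
  refine mainQ hT isClosed_closure (isPathConnected_pathComponent.isConnected.closure)
    (h2 x) g fun y hy t => ?_
  have hc : Continuous (fun y : M => (g (y, t)).1) := by fun_prop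
  have hP : ∀ y ∈ pathComponent x, (g (y, t)).1 ∈ pathComponent x := by
    intro y hy
    have hy' : Joined x y := hy
    have k1 : Joined ((g (x, 0)).1) ((g (y, 0)).1) :=
      hy'.map (f := fun y : M => (g (y, 0)).1) (by fun_prop)
    have k2 : Joined ((g (y, 0)).1) ((g (y, t)).1) := by
      have hc' : Continuous (fun s : ℝ => (g (y, projIcc (0:ℝ) 1 zero_le_one s)).1) :=
        continuous_fst.comp (g.continuous.comp (continuous_const.prodMk continuous_projIcc))
      have k3 := Pool.RY.RDD_joined_img (convex_Icc (0 : ℝ) 1)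
        (f := fun s : ℝ => (g (y, projIcc (0:ℝ) 1 zero_le_one s)).1) hc'.continuousOn
        (left_mem_Icc.2 zero_le_one) t.2
      have k4 : projIcc (0:ℝ) 1 zero_le_one (t : ℝ) = t := projIcc_val zero_le_one t
      simpa [k4] using k3
    exact (hx.trans k1).trans k2
  exact map_mem_closure (f := fun y : M => (g (y, t)).1) hc hy hP

end Pool.FM57
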